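import Pool.Agent.H11.T4.Stmts

/-! # STA: the open star of a vertex is the cone over its link -/

open Finset

namespace Pool.T4

theorem sta_fwd {n : ℕ} (K : Cx n) (v : Fin n) (x : Fin n → ℝ) (hx : x ∈ Geom K) (hv : x v ≠ 0) :
    (fun w => if w = v then 0 else x w / x v) ∈ Cone (link K v) := by
  obtain ⟨h0, h1, h2⟩ := hx
  have hvp : 0 < x v := lt_of_le_of_ne (h0 v) (Ne.symm hv)
  refine ⟨fun i => ?_, ?_⟩
  · dsimp only
    split_ifs
    · exact le_rfl
    · exact div_nonneg (h0 i) hvp.le
  · have hs : (univ.filter fun i => (if i = v then (0 : ℝ) else x i / x v) ≠ 0) =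
        (univ.filter fun i => x i ≠ 0).erase v := by
      ext i
      simp only [mem_filter, mem_univ, true_and, mem_erase]
      by_cases hi : i = v
      · simp [hi]
      · simp [hi, hv]
    show (univ.filter fun i => (if i = v then (0 : ℝ) else x i / x v) ≠ 0) ∈ link K v
    rw [hs]
    refine ⟨by simp, ?_⟩
    rw [insert_erase (by simp [hv])]
    exact h2

theorem sta_den {n : ℕ} (K : Cx n) (v : Fin n) (y : Fin n → ℝ) (hy : y ∈ Cone (link K v)) :
    0 < 1 + ∑ i, y i := by
  have : 0 ≤ ∑ i, y i := sum_nonneg fun i _ => hy.1 i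
  linarith

theorem sta_zero {n : ℕ} (K : Cx n) (v : Fin n) (y : Fin n → ℝ) (hy : y ∈ Cone (link K v)) :
    y v = 0 := by
  by_contra h
  exact hy.2.1 (by simp [h])

theorem sta_bwd {n : ℕ} (K : Cx n) (v : Fin n) (y : Fin n → ℝ) (hy : y ∈ Cone (link K v)) :
    (fun w => (if w = v then 1 else y w) / (1 + ∑ i, y i)) ∈ Geom K := by
  have hd := sta_den K v y hy
  have hz := sta_zero K v y hy
  obtain ⟨h0, h1, h2⟩ := hy
  refine ⟨fun i => ?_, ?_, ?_⟩
  · dsimp only
    refine div_nonneg ?_ hd.le
    split_ifs
    · exact zero_le_one
    · exact h0 i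
  · dsimp only
    rw [← sum_div, div_eq_one_iff_eq hd.ne']
    have : ∀ i, (if i = v then (1 : ℝ) else y i) = (if i = v then 1 else 0) + y i := by
      intro i
      by_cases hi : i = v
      · simp [hi, hz]
      · simp [hi]
    simp only [this, sum_add_distrib, sum_ite_eq', mem_univ, if_true]
  · have hs : (univ.filter fun i => (if i = v then (1 : ℝ) else y i) / (1 + ∑ i, y i) ≠ 0) =
        insert v (univ.filter fun i => y i ≠ 0) := by
      ext i
      simp only [mem_filter, mem_univ, true_and, mem_insert]
      by_cases hi : i = v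
      · simp [hi, hd.ne']
      · simp [hi, hd.ne']
    show (univ.filter fun i => (if i = v then (1 : ℝ) else y i) / (1 + ∑ i, y i) ≠ 0) ∈ K.faces
    rw [hs]
    exact h2

theorem sta : STAStmt := by
  intro n K v
  refine ⟨?_, ⟨?_⟩⟩
  · have hc : Continuous fun p : Geom K => p.1 v :=
      (continuous_apply v).comp continuous_subtype_val
    exact isOpen_ne.preimage hc
  · refine
      { toFun := fun p => ⟨fun w => if w = v then 0 else p.1.1 w / p.1.1 v,
          sta_fwd K v p.1.1 p.1.2 p.2⟩
        invFun := fun y => ⟨⟨fun w => (if w = v then 1 else y.1 w) / (1 + ∑ i, y.1 i),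
          sta_bwd K v y.1 y.2⟩, ?_⟩
        left_inv := ?_
        right_inv := ?_
        continuous_toFun := ?_
        continuous_invFun := ?_ }
    · show (if v = v then (1 : ℝ) else y.1 v) / (1 + ∑ i, y.1 i) ≠ 0
      rw [if_pos rfl]
      exact div_ne_zero one_ne_zero (sta_den K v y.1 y.2).ne'
    · intro p
      apply Subtype.ext
      apply Subtype.ext
      funext w
      have hv : p.1.1 v ≠ 0 := p.2
      have hsum : ∑ i, p.1.1 i = 1 := p.1.2.2.1
      have h1 : ∑ i, (if i = v then (0 : ℝ) else p.1.1 i / p.1.1 v) = (1 - p.1.1 v) / p.1.1 v := by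
        have : ∀ i, (if i = v then (0 : ℝ) else p.1.1 i / p.1.1 v) =
            p.1.1 i / p.1.1 v - (if i = v then 1 else 0) := by
          intro i
          by_cases hi : i = v
          · subst hi; simp [div_self hv]
          · simp [hi]
        simp only [this, sum_sub_distrib, sum_ite_eq', mem_univ, if_true, ← sum_div, hsum]
        field_simp
      show (if w = v then (1 : ℝ) else (if w = v then (0 : ℝ) else p.1.1 w / p.1.1 v)) /
        (1 + ∑ i, (if i = v then (0 : ℝ) else p.1.1 i / p.1.1 v)) = p.1.1 w
      rw [h1]
      have h2 : 1 + (1 - p.1.1 v) / p.1.1 v = 1 / p.1.1 v := by field_simp; ring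
      rw [h2]
      by_cases hw : w = v
      · subst hw; simp
      · rw [if_neg hw, if_neg hw]
        field_simp
    · intro y
      apply Subtype.ext
      funext w
      have hd := (sta_den K v y.1 y.2).ne'
      have hz := sta_zero K v y.1 y.2
      show (if w = v then (0 : ℝ) else (if w = v then (1 : ℝ) else y.1 w) / (1 + ∑ i, y.1 i) /
        ((if v = v then (1 : ℝ) else y.1 v) / (1 + ∑ i, y.1 i))) = y.1 w
      by_cases hw : w = v
      · subst hw; simp [hz]
      · rw [if_neg hw, if_neg hw, if_pos rfl]
        field_simp
    · refine Continuous.subtype_mk (continuous_pi fun w => ?_) _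
      by_cases hw : w = v
      · simp only [hw, if_true]
        exact continuous_const
      · simp only [hw, if_false]
        have hc : ∀ u : Fin n, Continuous fun p : openStar K v => p.1.1 u := fun u =>
          (continuous_apply u).comp (continuous_subtype_val.comp continuous_subtype_val)
        exact (hc w).div (hc v) fun p => p.2
    · refine Continuous.subtype_mk (Continuous.subtype_mk (continuous_pi fun w => ?_) _) _
      have hc : ∀ u : Fin n, Continuous fun y : Cone (link K v) => y.1 u := fun u =>
        (continuous_apply u).comp continuous_subtype_val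
      have hs : Continuous fun y : Cone (link K v) => 1 + ∑ i, y.1 i :=
        continuous_const.add (continuous_finsetSum _ fun i _ => hc i)
      refine Continuous.div ?_ hs fun y => (sta_den K v y.1 y.2).ne'
      by_cases hw : w = v
      · simp only [hw, if_true]
        exact continuous_const
      · simp only [hw, if_false]
        exact hc w

end Pool.T4
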